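import Pool.Agent.H82.PRP.Stmts

/-!
# Dimension shifting
-/

set_option autoImplicit false

namespace Pool.Agent.H82.PRP

open Filter Topology

namespace SHI

lemma continuous_contractNth {G : Type} [Group G] [TopologicalSpace G] [IsTopologicalGroup G]
    {n : ℕ} (j : Fin (n + 1)) :
    Continuous (fun g : Fin (n + 1) → G => Fin.contractNth j (· * ·) g) := by
  refine continuous_pi fun k => ?_
  unfold Fin.contractNth
  split_ifs <;> fun_prop

/-- The differential preserves locally constant cochains if the action is smooth. -/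
lemma dM_lc {p : ℕ} {G V : Type} [Group G] [TopologicalSpace G] [IsTopologicalGroup G]
    [AddCommGroup V] [Module (ZMod p) V] (ρ : Representation (ZMod p) G V)
    (hs : ∀ v : V, IsLocallyConstant fun g => ρ g v) {n : ℕ} {f : (Fin n → G) → V}
    (hf : IsLocallyConstant f) : IsLocallyConstant (dM ρ n f) := by
  rw [IsLocallyConstant.iff_eventually_eq]
  intro g
  have c1 : Continuous (fun g' : Fin (n + 1) → G => fun i : Fin n => g' i.succ) :=
    continuous_pi fun k => continuous_apply _
  have h1 : ∀ᶠ g' in 𝓝 g, f (fun i => g' i.succ) = f (fun i => g i.succ) :=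
    (hf.comp_continuous c1).eventually_eq g
  have h2 : ∀ᶠ g' in 𝓝 g, ρ (g' 0) (f fun i => g i.succ) = ρ (g 0) (f fun i => g i.succ) :=
    ((hs (f fun i => g i.succ)).comp_continuous (continuous_apply 0)).eventually_eq g
  have h3 : ∀ᶠ g' in 𝓝 g, ∀ j : Fin (n + 1),
      f (Fin.contractNth j (· * ·) g') = f (Fin.contractNth j (· * ·) g) :=
    eventually_all.2 fun j => (hf.comp_continuous (continuous_contractNth j)).eventually_eq g
  filter_upwards [h1, h2, h3] with g' e1 e2 e3
  unfold dM
  rw [e1, e2]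
  simp only [e3]

/-- The differential commutes with equivariant maps. -/
lemma dM_map {p : ℕ} {G V W : Type} [Group G] [AddCommGroup V] [Module (ZMod p) V]
    [AddCommGroup W] [Module (ZMod p) W] {ρ : Representation (ZMod p) G V}
    {σ : Representation (ZMod p) G W} (φ : V →ₗ[ZMod p] W) (hφ : ∀ g v, φ (ρ g v) = σ g (φ v))
    {n : ℕ} (f : (Fin n → G) → V) :
    dM σ n (fun x => φ (f x)) = fun g => φ (dM ρ n f g) := by
  funext g
  unfold dM
  rw [map_add, map_sum, hφ]
  simp only [map_smul]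

lemma dM_sub {p : ℕ} {G V : Type} [Group G] [AddCommGroup V] [Module (ZMod p) V]
    (ρ : Representation (ZMod p) G V) {n : ℕ} (f f' : (Fin n → G) → V) :
    dM ρ n (fun x => f x - f' x) = fun g => dM ρ n f g - dM ρ n f' g := by
  funext g
  unfold dM
  simp only [map_sub, smul_sub, Finset.sum_sub_distrib]
  abel

/-- Locally constant functions on a compact group are uniformly locally constant; so the
representation `lrep` is smooth. -/
lemma lrep_smooth (p : ℕ) (G V : Type) [Group G] [TopologicalSpace G] [IsTopologicalGroup G]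
    [CompactSpace G] [AddCommGroup V] [Module (ZMod p) V] (φ : LC p G V) :
    IsLocallyConstant fun g => lrep p G V g φ := by
  rw [IsLocallyConstant.iff_eventually_eq]
  intro g
  have hφ : IsLocallyConstant φ.1 := φ.2
  -- the map (g, x) ↦ φ (g⁻¹ x) is locally constant
  have h1 : IsLocallyConstant (fun z : G × G => φ.1 (z.1⁻¹ * z.2)) :=
    hφ.comp_continuous (by fun_prop)
  have h2 : ∀ x : G, ∀ᶠ z in 𝓝 g ×ˢ 𝓝 x, φ.1 (z.1⁻¹ * z.2) = φ.1 (g⁻¹ * x) := by
    intro x
    rw [← nhds_prod_eq]
    exact h1.eventually_eq (g, x)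
  have h3 : ∀ x : G, ∀ᶠ z in 𝓝 g ×ˢ 𝓝 x, φ.1 (z.1⁻¹ * z.2) = φ.1 (g⁻¹ * z.2) := by
    intro x
    have h4 : ∀ᶠ y in 𝓝 x, φ.1 (g⁻¹ * y) = φ.1 (g⁻¹ * x) :=
      (hφ.comp_continuous (continuous_const_mul g⁻¹)).eventually_eq x
    filter_upwards [h2 x, h4.prod_inr (𝓝 g)] with z e1 e2
    rw [e1, e2]
  have h5 : ∀ᶠ g' in 𝓝 g, ∀ x ∈ (Set.univ : Set G), φ.1 (g'⁻¹ * x) = φ.1 (g⁻¹ * x) := by
    refine isCompact_univ.eventually_forall_of_forall_eventually fun x _ => ?_
    rw [nhds_prod_eq]
    exact h3 x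
  filter_upwards [h5] with g' e
  apply Subtype.ext
  funext x
  exact e x (Set.mem_univ x)

end SHI

theorem shi_thm (hDD : DDStmt) : SHIStmt := by
  intro p G A B C _ _ _ _ _ _ _ _ _ ρA ρB ρC i q hi hq hinj hsur hs hex n hB hC f hf hdf
  obtain ⟨b, hb, hdb⟩ := hB (fun x => i (f x)) (hf.comp i) (by
    rw [SHI.dM_map i hi f, hdf]
    funext g
    exact map_zero i)
  obtain ⟨c, hc, hdc⟩ := hC (fun x => q (b x)) (hb.comp q) (by
    rw [SHI.dM_map q hq b, hdb]
    funext g
    exact (hex _).2 ⟨_, rfl⟩)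
  obtain ⟨s, hs'⟩ := hsur.hasRightInverse
  set b' : (Fin n → G) → B := fun x => s (c x) with hb'
  have hb'c : IsLocallyConstant b' := hc.comp s
  have hqb' : (fun x => q (b' x)) = c := by
    funext x
    exact hs' (c x)
  have hd' : IsLocallyConstant (dM ρB n b') := SHI.dM_lc ρB hs hb'c
  -- the corrected cochain
  have h0 : ∀ x, q (b x - dM ρB n b' x) = 0 := by
    intro x
    have e1 := congrFun (SHI.dM_map q hq b') x
    rw [hqb', hdc] at e1
    rw [map_sub, ← e1, sub_self]
  choose h hh using fun x => (hex _).1 (h0 x)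
  refine ⟨h, ?_, ?_⟩
  · rw [IsLocallyConstant.iff_eventually_eq]
    intro x
    filter_upwards [hb.eventually_eq x, hd'.eventually_eq x] with x' e1 e2
    apply hinj
    rw [hh, hh, e1, e2]
  · funext g
    apply hinj
    have e1 := congrFun (SHI.dM_map i hi h) g
    simp only [hh] at e1
    have e2 : dM ρB (n + 1) (dM ρB n b') g = 0 := congrFun (hDD p G B ρB n b') g
    rw [← e1, SHI.dM_sub]
    simp only [hdb, e2, sub_zero]

end Pool.Agent.H82.PRP
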